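import Pool.Agent.Helper99.GL.FSpec

/-! F01: local existence for holomorphic ODE with a uniform radius. -/

set_option autoImplicit false

open Metric Set Filter Topology

namespace Pool.GL.Helper49

open Pool.GL

theorem hode : S_HODE := by
  intro U G hU hG x₀ hx₀
  obtain ⟨K, t, ht, hLip⟩ := (hG.contDiffAt (hU.mem_nhds hx₀)).exists_lipschitzOnWith
  obtain ⟨R, hR, hRt⟩ := nhds_basis_closedBall.mem_iff.1 (inter_mem ht (hU.mem_nhds hx₀))
  set r : ℝ := R / 2 with hr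
  have hr0 : 0 < r := by positivity
  set M : ℝ := ‖G x₀‖ + K * R with hM
  have hM0 : 0 ≤ M := by positivity
  have hGM : ∀ y ∈ closedBall x₀ R, ‖G y‖ ≤ M := by
    intro y hy
    have h1 := hLip.dist_le_mul y (hRt hy).1 x₀ (hRt (mem_closedBall_self hR.le)).1
    rw [dist_eq_norm] at h1
    have h2 : ‖G y‖ ≤ ‖G x₀‖ + ‖G y - G x₀‖ := by
      calc ‖G y‖ = ‖G x₀ + (G y - G x₀)‖ := by congr 1; abel
        _ ≤ _ := norm_add_le _ _
    have h3 : (K : ℝ) * dist y x₀ ≤ K * R := mul_le_mul_of_nonneg_left hy K.2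
    linarith
  set ε : ℝ := min (r / (M + 1)) (1 / (2 * ((K : ℝ) + 1))) with hε
  have hK0 : (0 : ℝ) ≤ K := K.2
  have hε0 : 0 < ε := lt_min (by positivity) (by positivity)
  have hε1 : M * ε ≤ r := by
    have h1 : ε ≤ r / (M + 1) := min_le_left _ _
    calc M * ε ≤ M * (r / (M + 1)) := mul_le_mul_of_nonneg_left h1 hM0
      _ ≤ r := by
        rw [mul_div_assoc', div_le_iff₀ (by positivity)]
        nlinarith
  have hε2 : K * ε ≤ 1 / 2 := by
    have h1 : ε ≤ 1 / (2 * ((K : ℝ) + 1)) := min_le_right _ _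
    calc K * ε ≤ K * (1 / (2 * ((K : ℝ) + 1))) := mul_le_mul_of_nonneg_left h1 hK0
      _ ≤ 1 / 2 := by
        rw [mul_one_div, div_le_div_iff₀ (by positivity) (by positivity)]
        nlinarith
  refine ⟨r, hr0, ε, hε0, ?_, ?_⟩
  · intro y hy
    exact (hRt (closedBall_subset_closedBall (by linarith) (ball_subset_closedBall hy))).2
  intro x hx
  have hsub : closedBall x r ⊆ closedBall x₀ R := by
    apply closedBall_subset_closedBall'
    have := (mem_ball.1 hx).le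
    linarith
  have h0mem : (0 : ℂ) ∈ ball (0 : ℂ) ε := mem_ball_self hε0
  -- the Picard operator
  have hnext : ∀ φ : {φ : ℂ → ℂ × ℂ // (∀ t ∈ ball (0 : ℂ) ε, φ t ∈ closedBall x r) ∧
      DifferentiableOn ℂ φ (ball (0 : ℂ) ε)}, ∃ ψ : {φ : ℂ → ℂ × ℂ //
      (∀ t ∈ ball (0 : ℂ) ε, φ t ∈ closedBall x r) ∧ DifferentiableOn ℂ φ (ball (0 : ℂ) ε)},
      ψ.1 0 = x ∧ ∀ t ∈ ball (0 : ℂ) ε, HasDerivAt ψ.1 (G (φ.1 t)) t := by
    rintro ⟨φ, hφ, hφd⟩
    have hGφ : DifferentiableOn ℂ (fun t => G (φ t)) (ball (0 : ℂ) ε) := by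
      intro t ht'
      have h1 : φ t ∈ U := (hRt (hsub (hφ t ht'))).2
      have h2 : DifferentiableAt ℂ G (φ t) :=
        (hG.contDiffAt (hU.mem_nhds h1)).differentiableAt one_ne_zero
      exact h2.comp_differentiableWithinAt t (hφd t ht')
    obtain ⟨ψ, hψ0, hψ⟩ := hGφ.isExactOn_ball.with_val_at 0 x
    refine ⟨⟨ψ, fun t ht' => ?_, fun t ht' => (hψ t ht').differentiableAt.differentiableWithinAt⟩,
      hψ0, hψ⟩
    have h1 := (convex_ball (0 : ℂ) ε).norm_image_sub_le_of_norm_hasDerivWithin_le (f := ψ)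
      (f' := fun t => G (φ t)) (C := M) (fun s hs => (hψ s hs).hasDerivWithinAt)
      (fun s hs => hGM _ (hsub (hφ s hs))) h0mem ht'
    rw [hψ0, sub_zero] at h1
    rw [mem_closedBall, dist_eq_norm]
    have h2 : ‖t‖ ≤ ε := by
      have := mem_ball_zero_iff.1 ht'
      exact this.le
    calc ‖ψ t - x‖ ≤ M * ‖t‖ := h1
      _ ≤ M * ε := mul_le_mul_of_nonneg_left h2 hM0
      _ ≤ r := hε1
  choose next hnext0 hnext1 using hnext
  obtain ⟨Φ, hΦz, hΦs⟩ : ∃ Φ : ℕ → {φ : ℂ → ℂ × ℂ // (∀ t ∈ ball (0 : ℂ) ε,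
      φ t ∈ closedBall x r) ∧ DifferentiableOn ℂ φ (ball (0 : ℂ) ε)},
      (Φ 0).1 = (fun _ => x) ∧ ∀ n, Φ (n + 1) = next (Φ n) := ⟨fun n => Nat.rec
    ⟨fun _ => x, fun _ _ => mem_closedBall_self hr0.le, differentiableOn_const x⟩
    (fun _ φ => next φ) n, rfl, fun n => rfl⟩
  have hΦ0 : ∀ n, (Φ n).1 0 = x := by
    intro n
    cases n with
    | zero => rw [hΦz]
    | succ n => rw [hΦs]; exact hnext0 _
  have hΦd : ∀ n, ∀ t ∈ ball (0 : ℂ) ε, HasDerivAt (Φ (n + 1)).1 (G ((Φ n).1 t)) t := by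
    intro n t ht'
    rw [hΦs]; exact hnext1 _ t ht'
  have hbd : ∀ n, ∀ t ∈ ball (0 : ℂ) ε, ‖(Φ (n + 1)).1 t - (Φ n).1 t‖ ≤ r * (1 / 2) ^ n := by
    intro n
    induction n with
    | zero =>
      intro t ht'
      rw [pow_zero, mul_one, ← dist_eq_norm, hΦz]
      exact (Φ 1).2.1 t ht'
    | succ n ih =>
      intro t ht'
      have h1 : ‖((Φ (n + 1 + 1)).1 t - (Φ (n + 1)).1 t) -
          ((Φ (n + 1 + 1)).1 0 - (Φ (n + 1)).1 0)‖ ≤ K * (r * (1 / 2) ^ n) * ‖t - 0‖ :=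
        (convex_ball (0 : ℂ) ε).norm_image_sub_le_of_norm_hasDerivWithin_le
        (f := fun t => (Φ (n + 1 + 1)).1 t - (Φ (n + 1)).1 t)
        (f' := fun t => G ((Φ (n + 1)).1 t) - G ((Φ n).1 t)) (C := K * (r * (1 / 2) ^ n))
        (fun s hs => by
          have e1 := hΦd (n + 1) s hs
          have e2 := hΦd n s hs
          exact (e1.sub e2).hasDerivWithinAt)
        (fun s hs => by
          have e1 := hLip.dist_le_mul _ (hRt (hsub ((Φ (n + 1)).2.1 s hs))).1 _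
            (hRt (hsub ((Φ n).2.1 s hs))).1
          rw [dist_eq_norm, dist_eq_norm] at e1
          exact e1.trans (mul_le_mul_of_nonneg_left (ih s hs) hK0)) h0mem ht'
      rw [hΦ0, hΦ0, sub_self, sub_zero, sub_zero] at h1
      have h2 : ‖t‖ ≤ ε := (mem_ball_zero_iff.1 ht').le
      calc ‖(Φ (n + 1 + 1)).1 t - (Φ (n + 1)).1 t‖ ≤ K * (r * (1 / 2) ^ n) * ‖t‖ := h1
        _ ≤ K * (r * (1 / 2) ^ n) * ε := mul_le_mul_of_nonneg_left h2 (by positivity)
        _ = (K * ε) * (r * (1 / 2) ^ n) := by ring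
        _ ≤ 1 / 2 * (r * (1 / 2) ^ n) := mul_le_mul_of_nonneg_right hε2 (by positivity)
        _ = r * (1 / 2) ^ (n + 1) := by ring
  have hex : ∀ t : ℂ, ∃ y : ℂ × ℂ, t ∈ ball (0 : ℂ) ε →
      Tendsto (fun n => (Φ n).1 t) atTop (𝓝 y) ∧ ∀ n, dist ((Φ n).1 t) y ≤ 2 * r * (1 / 2) ^ n := by
    intro t
    by_cases ht' : t ∈ ball (0 : ℂ) ε
    · have h1 : ∀ n, dist ((Φ n).1 t) ((Φ (n + 1)).1 t) ≤ r * (1 / 2) ^ n := by
        intro n
        rw [dist_comm, dist_eq_norm]; exact hbd n t ht'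
      obtain ⟨y, hy⟩ := cauchySeq_tendsto_of_complete
        (cauchySeq_of_le_geometric (1 / 2) r (by norm_num) h1)
      refine ⟨y, fun _ => ⟨hy, fun n => ?_⟩⟩
      have h2 := dist_le_of_le_geometric_of_tendsto (1 / 2) r (by norm_num) h1 hy n
      refine h2.trans (le_of_eq ?_)
      ring
    · exact ⟨0, fun h => absurd h ht'⟩
  choose φ hφ using hex
  have hφmem : ∀ t ∈ ball (0 : ℂ) ε, φ t ∈ closedBall x r := fun t ht' =>
    isClosed_closedBall.mem_of_tendsto (hφ t ht').1 (Eventually.of_forall fun n => (Φ n).2.1 t ht')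
  have hpow : Tendsto (fun n : ℕ => K * (2 * r * (1 / 2 : ℝ) ^ n)) atTop (𝓝 0) := by
    have h1 := tendsto_pow_atTop_nhds_zero_of_lt_one (r := (1 / 2 : ℝ)) (by norm_num) (by norm_num)
    have h2 := (h1.const_mul (2 * r)).const_mul (K : ℝ)
    simpa using h2
  have hunif : TendstoUniformlyOn (fun (n : ℕ) (t : ℂ) => G ((Φ n).1 t)) (fun t => G (φ t)) atTop
      (ball (0 : ℂ) ε) := by
    rw [Metric.tendstoUniformlyOn_iff]
    intro e he
    filter_upwards [hpow.eventually_lt_const he] with n hn t ht'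
    have e1 := hLip.dist_le_mul _ (hRt (hsub (hφmem t ht'))).1 _
      (hRt (hsub ((Φ n).2.1 t ht'))).1
    have e2 := (hφ t ht').2 n
    rw [dist_comm] at e2
    exact (e1.trans (mul_le_mul_of_nonneg_left e2 hK0)).trans_lt hn
  have hder : ∀ s ∈ ball (0 : ℂ) ε, HasDerivAt φ (G (φ s)) s := fun s hs =>
    hasDerivAt_of_tendstoUniformlyOn (f := fun n : ℕ => (Φ (n + 1)).1)
    (f' := fun (n : ℕ) (t : ℂ) => G ((Φ n).1 t)) (g := φ) (g' := fun t => G (φ t)) isOpen_ball hunif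
    (Eventually.of_forall fun n t ht' => hΦd n t ht')
    (fun t ht' => ((hφ t ht').1.comp (tendsto_add_atTop_nat 1) :
      Tendsto (fun n => (Φ (n + 1)).1 t) atTop (𝓝 (φ t)))) hs
  refine ⟨φ, ?_, fun t ht' => ⟨(hRt (hsub (hφmem t ht'))).2, hder t ht'⟩⟩
  have h1 := (hφ 0 h0mem).1
  have h2 : (fun n => (Φ n).1 0) = fun _ => x := funext hΦ0
  rw [h2] at h1
  exact tendsto_nhds_unique tendsto_const_nhds h1 |>.symm

end Pool.GL.Helper49
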