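import Pool.Agent.Helper99.GL.FSpec

/-! F02: uniqueness. -/

set_option autoImplicit false

open Metric Set Filter Topology

namespace Pool.GL.Helper49

open Pool.GL

theorem uniq : S_UNIQ := by
  intro U G hU hG k γ₁ γ₂ T hT hk hγ h0
  have hc1 : ContinuousOn γ₁ (Icc 0 T) := fun t ht => (hγ t ht).2.2.1.continuousWithinAt
  have hc2 : ContinuousOn γ₂ (Icc 0 T) := fun t ht => (hγ t ht).2.2.2.continuousWithinAt
  set S : Set (ℂ × ℂ) := γ₁ '' Icc 0 T ∪ γ₂ '' Icc 0 T with hS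
  have hScomp : IsCompact S := (isCompact_Icc.image_of_continuousOn hc1).union
    (isCompact_Icc.image_of_continuousOn hc2)
  have hSU : S ⊆ U := by
    rintro y (⟨t, ht, rfl⟩ | ⟨t, ht, rfl⟩)
    · exact (hγ t ht).1
    · exact (hγ t ht).2.1
  have hloc : LocallyLipschitzOn S G := by
    intro y hy
    obtain ⟨K, t, ht, hL⟩ := (hG.contDiffAt (hU.mem_nhds (hSU hy))).exists_lipschitzOnWith
    exact ⟨K, t, mem_nhdsWithin_of_mem_nhds ht, hL⟩
  obtain ⟨K, hK⟩ := hloc.exists_lipschitzOnWith_of_compact hScomp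
  obtain ⟨C, hC⟩ := isCompact_Icc.exists_bound_of_continuousOn hk
  have hC0 : 0 ≤ C := (norm_nonneg _).trans (hC 0 ⟨le_rfl, hT⟩)
  have hlip : ∀ t ∈ Ico (0 : ℝ) T, LipschitzOnWith (C.toNNReal * K)
      ((fun (t : ℝ) (y : ℂ × ℂ) => k t • G y) t) ((fun _ => S) t) := by
    intro t ht
    refine LipschitzOnWith.of_dist_le_mul fun y hy z hz => ?_
    have h1 := hK.dist_le_mul y hy z hz
    have h2 := hC t (Ico_subset_Icc_self ht)
    simp only
    rw [dist_smul₀]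
    push_cast
    rw [Real.coe_toNNReal C hC0]
    calc ‖k t‖ * dist (G y) (G z) ≤ C * (K * dist y z) :=
          mul_le_mul h2 h1 dist_nonneg hC0
      _ = C * K * dist y z := by ring
  have hder : ∀ γ : ℝ → ℂ × ℂ, (∀ t ∈ Icc 0 T, HasDerivWithinAt γ (k t • G (γ t)) (Icc 0 T) t) →
      ∀ t ∈ Ico (0 : ℝ) T, HasDerivWithinAt γ (k t • G (γ t)) (Ici t) t := by
    intro γ h t ht
    refine (h t (Ico_subset_Icc_self ht)).mono_of_mem_nhdsWithin ?_
    rw [mem_nhdsWithin_iff_exists_mem_nhds_inter]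
    refine ⟨Iio T, Iio_mem_nhds ht.2, fun s hs => ⟨ht.1.trans hs.2, (show s < T from hs.1).le⟩⟩
  have := ODE_solution_unique_of_mem_Icc_right hlip hc1
    (hder γ₁ fun t ht => (hγ t ht).2.2.1)
    (fun t ht => Or.inl ⟨t, Ico_subset_Icc_self ht, rfl⟩) hc2
    (hder γ₂ fun t ht => (hγ t ht).2.2.2)
    (fun t ht => Or.inr ⟨t, Ico_subset_Icc_self ht, rfl⟩) h0
  exact fun t ht => this ht

theorem uniqc : S_UNIQC := by
  intro U G hU hG N hN hNc φ₁ φ₂ hφ t₀ ht₀ h0 t ht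
  have hd1 : DifferentiableOn ℂ φ₁ N := fun t ht =>
    (hφ t ht).2.2.1.differentiableAt.differentiableWithinAt
  have hd2 : DifferentiableOn ℂ φ₂ N := fun t ht =>
    (hφ t ht).2.2.2.differentiableAt.differentiableWithinAt
  have ha1 : AnalyticOnNhd ℂ φ₁ N := hd1.analyticOnNhd hN
  have ha2 : AnalyticOnNhd ℂ φ₂ N := hd2.analyticOnNhd hN
  have hloc : φ₁ =ᶠ[𝓝 t₀] φ₂ := by
    obtain ⟨ρ, hρ, hball⟩ := Metric.isOpen_iff.1 hN t₀ ht₀
    filter_upwards [ball_mem_nhds t₀ hρ] with s hs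
    -- segment
    have hseg : ∀ θ ∈ Icc (0 : ℝ) 1, t₀ + (θ : ℂ) * (s - t₀) ∈ N := by
      intro θ hθ
      apply hball
      rw [mem_ball, dist_eq_norm, add_sub_cancel_left, norm_mul, Complex.norm_real,
        Real.norm_eq_abs, abs_of_nonneg hθ.1]
      rw [mem_ball, dist_eq_norm] at hs
      calc θ * ‖s - t₀‖ ≤ 1 * ‖s - t₀‖ := mul_le_mul_of_nonneg_right hθ.2 (norm_nonneg _)
        _ < ρ := by linarith
    have hcurve : ∀ φ : ℂ → ℂ × ℂ, (∀ t ∈ N, HasDerivAt φ (G (φ t)) t) → ∀ θ ∈ Icc (0 : ℝ) 1,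
        HasDerivWithinAt (fun θ : ℝ => φ (t₀ + (θ : ℂ) * (s - t₀)))
          ((s - t₀) • G (φ (t₀ + (θ : ℂ) * (s - t₀)))) (Icc 0 1) θ := by
      intro φ h θ hθ
      have h1 : HasDerivAt (fun θ : ℝ => t₀ + (θ : ℂ) * (s - t₀)) (s - t₀) θ := by
        have := ((Complex.ofRealCLM.hasDerivAt (x := θ)).mul_const (s - t₀)).const_add t₀
        simpa using this
      exact ((h _ (hseg θ hθ)).scomp θ h1).hasDerivWithinAt
    have := uniq U G hU hG (fun _ => s - t₀) (fun θ => φ₁ (t₀ + (θ : ℂ) * (s - t₀)))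
      (fun θ => φ₂ (t₀ + (θ : ℂ) * (s - t₀))) 1 zero_le_one continuousOn_const
      (fun θ hθ => ⟨(hφ _ (hseg θ hθ)).1, (hφ _ (hseg θ hθ)).2.1,
        hcurve φ₁ (fun t ht => (hφ t ht).2.2.1) θ hθ,
        hcurve φ₂ (fun t ht => (hφ t ht).2.2.2) θ hθ⟩) (by simpa using h0) 1
      ⟨zero_le_one, le_rfl⟩
    simpa using this
  exact ha1.eqOn_of_preconnected_of_eventuallyEq ha2 hNc ht₀ hloc ht

theorem contDiff_eval (p : Polynomial ℂ) : ContDiff ℂ 1 (fun x : ℂ => p.eval x) := by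
  have h := Polynomial.contDiff_aeval (𝕜 := ℂ) p 1
  simpa [Polynomial.coe_aeval_eq_eval] using h

theorem contDiff_A (I : Inf) : ContDiff ℂ 1 (fun p : ℂ × ℂ => I.A p.1 p.2) := by
  unfold Inf.A
  refine ContDiff.sum fun m _ => ?_
  refine ContDiff.mul (contDiff_snd.pow m) ?_
  exact (contDiff_eval (I.a m)).comp contDiff_fst

theorem contDiff_B (I : Inf) : ContDiff ℂ 1 (fun p : ℂ × ℂ => I.B p.1 p.2) := by
  unfold Inf.B
  refine ContDiff.sum fun m _ => ?_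
  refine ContDiff.mul (contDiff_snd.pow m) ?_
  exact (contDiff_eval (I.b m)).comp contDiff_fst

theorem soluni : S_SOLUNI := by
  intro I N hN hNc ζ₁ ζ₂ h1 h2 s₀ hs₀ h0 s hs
  have hU : IsOpen {p : ℂ × ℂ | I.B p.1 p.2 ≠ 0} :=
    (isClosed_singleton (x := (0 : ℂ))).isOpen_compl.preimage (contDiff_B I).continuous
  have hG : ContDiffOn ℂ 1 (fun p : ℂ × ℂ => ((1 : ℂ), p.2 * I.A p.1 p.2 / I.B p.1 p.2))
      {p : ℂ × ℂ | I.B p.1 p.2 ≠ 0} := by
    refine ContDiffOn.prodMk contDiffOn_const ?_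
    refine ContDiffOn.div ?_ (contDiff_B I).contDiffOn fun p hp => hp
    exact (contDiff_snd.mul (contDiff_A I)).contDiffOn
  have hder : ∀ ζ : ℂ → ℂ, I.Sol N ζ → ∀ t ∈ N, HasDerivAt (fun s => (s, ζ s))
      ((1 : ℂ), ζ t * I.A t (ζ t) / I.B t (ζ t)) t := fun ζ h t ht =>
    (hasDerivAt_id t).prodMk (h t ht).2
  have := uniqc _ _ hU hG N hN hNc (fun s => (s, ζ₁ s)) (fun s => (s, ζ₂ s))
    (fun t ht => ⟨(h1 t ht).1, (h2 t ht).1, hder ζ₁ h1 t ht, hder ζ₂ h2 t ht⟩) s₀ hs₀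
    (by simp [h0]) s hs
  exact (Prod.mk.inj this).2

end Pool.GL.Helper49
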