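import Pool.Agent.Helper99.GL.FSpec

/-! F08: solutions in the chart at infinity stay in the leaf. -/

set_option autoImplicit false

open Metric Set Filter Topology

namespace Pool.GL.Helper49

open Pool.GL

theorem cont_A (I : Inf) : Continuous (fun p : ℂ × ℂ => I.A p.1 p.2) := by
  unfold Inf.A
  fun_prop

theorem cont_B (I : Inf) : Continuous (fun p : ℂ × ℂ => I.B p.1 p.2) := by
  unfold Inf.B
  fun_prop

theorem lk (hC : S_CURVE) (hCh : S_CHART) : S_LK := by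
  intro F hP hQ N hN hNc ζ hζ h0 s hs s' hs'
  set σ : ℝ → ℂ := fun τ => s + (τ : ℂ) * (s' - s) with hσ
  have hσN : ∀ τ ∈ Icc (0 : ℝ) 1, σ τ ∈ N := by
    intro τ hτ
    have := hNc.add_smul_sub_mem hs hs' hτ
    simpa [hσ, Complex.real_smul] using this
  have hσd : ∀ τ : ℝ, HasDerivAt σ (s' - s) τ := by
    intro τ
    have := ((Complex.ofRealCLM.hasDerivAt (x := τ)).mul_const (s' - s)).const_add s
    simpa [hσ] using this
  have hζd : ∀ τ ∈ Icc (0 : ℝ) 1, HasDerivAt (fun τ => ζ (σ τ))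
      ((s' - s) * (ζ (σ τ) * F.inf.A (σ τ) (ζ (σ τ)) / F.inf.B (σ τ) (ζ (σ τ)))) τ := by
    intro τ hτ
    exact (hζ _ (hσN τ hτ)).2.scomp τ (hσd τ)
  have hσc : ContinuousOn σ (Icc 0 1) := fun τ _ => (hσd τ).continuousAt.continuousWithinAt
  have hζc : ContinuousOn (fun τ => ζ (σ τ)) (Icc 0 1) := fun τ hτ =>
    (hζd τ hτ).continuousAt.continuousWithinAt
  have hpair : ContinuousOn (fun τ => ((σ τ, ζ (σ τ)) : ℂ × ℂ)) (Icc 0 1) := hσc.prodMk hζc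
  have hk : ContinuousOn (fun τ : ℝ => (s' - s) * (ζ (σ τ) ^ F.d /
      (ζ (σ τ) * F.inf.B (σ τ) (ζ (σ τ))))) (Icc 0 1) := by
    refine continuousOn_const.mul ((hζc.pow _).div (hζc.mul
      ((cont_B F.inf).comp_continuousOn hpair)) fun τ hτ => ?_)
    exact mul_ne_zero (h0 _ (hσN τ hτ)) (hζ _ (hσN τ hτ)).1
  have := hC F (fun τ => aff (σ τ) (ζ (σ τ))) (fun τ => (s' - s) * (ζ (σ τ) ^ F.d /
      (ζ (σ τ) * F.inf.B (σ τ) (ζ (σ τ))))) 1 zero_le_one hk ?_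
  · simpa [hσ] using this
  intro τ hτ
  apply HasDerivAt.hasDerivWithinAt
  have hz := h0 _ (hσN τ hτ)
  have hB := (hζ _ (hσN τ hτ)).1
  have d1 := hζd τ hτ
  have d2 := hσd τ
  have e1 : HasDerivAt (fun τ => 1 / ζ (σ τ)) _ τ := (hasDerivAt_const τ (1 : ℂ)).div d1 hz
  have e2 : HasDerivAt (fun τ => σ τ / ζ (σ τ)) _ τ := d2.div d1 hz
  have e3 := e1.prodMk e2
  obtain ⟨c1, c2⟩ := hCh F hP hQ (σ τ) (ζ (σ τ)) hz
  have hzd : ζ (σ τ) ^ F.d ≠ 0 := pow_ne_zero _ hz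
  refine e3.congr_deriv (Eq.symm ?_)
  refine Prod.ext ?_ ?_
  · simp only [Prod.smul_fst, smul_eq_mul]
    calc (s' - s) * (ζ (σ τ) ^ F.d / (ζ (σ τ) * F.inf.B (σ τ) (ζ (σ τ)))) *
          (F.W (aff (σ τ) (ζ (σ τ)))).1
        = (s' - s) * (ζ (σ τ) ^ F.d * (F.W (aff (σ τ) (ζ (σ τ)))).1) /
          (ζ (σ τ) * F.inf.B (σ τ) (ζ (σ τ))) := by ring
      _ = _ := by
        rw [c1]; field_simp; ring
  · simp only [Prod.smul_snd, smul_eq_mul]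
    calc (s' - s) * (ζ (σ τ) ^ F.d / (ζ (σ τ) * F.inf.B (σ τ) (ζ (σ τ)))) *
          (F.W (aff (σ τ) (ζ (σ τ)))).2
        = (s' - s) * (ζ (σ τ) ^ F.d * (F.W (aff (σ τ) (ζ (σ τ)))).2) /
          (ζ (σ τ) * F.inf.B (σ τ) (ζ (σ τ))) := by ring
      _ = _ := by
        rw [c2]; field_simp

end Pool.GL.Helper49
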