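import Pool.Agent.Helper99.GL.FSpec

/-! F10: transit germs. -/

set_option autoImplicit false

open Metric Set Filter Topology

namespace Pool.GL.Helper49

open Pool.GL

theorem cont_A' (I : Inf) : Continuous (fun p : ℂ × ℂ => I.A p.1 p.2) := by
  unfold Inf.A
  fun_prop

theorem cont_B' (I : Inf) : Continuous (fun p : ℂ × ℂ => I.B p.1 p.2) := by
  unfold Inf.B
  fun_prop

theorem A_zero (I : Inf) (s : ℂ) : I.A s 0 = (I.a 0).eval s := by
  unfold Inf.A
  rw [Finset.sum_eq_single 0]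
  · simp
  · intro m _ hm
    rw [zero_pow hm, zero_mul]
  · intro h; simp at h

theorem B_zero (I : Inf) (s : ℂ) : I.B s 0 = (I.b 0).eval s := by
  unfold Inf.B
  rw [Finset.sum_eq_single 0]
  · simp
  · intro m _ hm
    rw [zero_pow hm, zero_mul]
  · intro h; simp at h

theorem loc_om {I : Inf} {a : ℂ} {η δ : ℝ} {ζ : ℂ → ℂ → ℂ} (h : I.Loc a η δ ζ) {s : ℂ}
    (hs : s ∈ ball a η) : s ∈ I.Om := by
  have h1 := (h.sol 0 (by rw [norm_zero]; exact h.δ_pos) s hs).1
  simp only [h.zero s hs] at h1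
  rwa [B_zero] at h1

theorem loc_mono {I : Inf} {a : ℂ} {η η' δ : ℝ} {ζ : ℂ → ℂ → ℂ} (h : I.Loc a η δ ζ)
    (h0 : 0 < η') (hle : η' ≤ η) : I.Loc a η' δ ζ := by
  have hsub : ball a η' ⊆ ball a η := ball_subset_ball hle
  exact ⟨h0, h.δ_pos, h.init, fun s hs => h.zero s (hsub hs),
    fun z hz s hs => h.sol z hz s (hsub hs), fun s hs => h.diffz s (hsub hs),
    h.cont.mono (prod_mono hsub (Subset.refl _)), fun s hs => h.size s (hsub hs),
    fun s hs => h.speed s (hsub hs)⟩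

theorem tr3 (hL : S_LOC) : S_TR3 := by
  intro I a ha
  have hopen : IsOpen I.Om := by
    have : Continuous fun s : ℂ => (I.b 0).eval s := (I.b 0).continuous
    exact isClosed_singleton.isOpen_compl.preimage this
  obtain ⟨r, hr, hrO⟩ := nhds_basis_closedBall.mem_iff.1 (hopen.mem_nhds ha)
  obtain ⟨η₁, hη₁, δ, hδ, hloc⟩ := hL I (closedBall a r) (isCompact_closedBall a r) hrO
  set η := min η₁ (96 * r) with hη
  have hη0 : 0 < η := lt_min hη₁ (by positivity)
  have hloc' : ∀ b ∈ closedBall a r, ∃ ζ : ℂ → ℂ → ℂ, I.Loc b η δ ζ := by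
    intro b hb
    obtain ⟨ζ, hζ⟩ := hloc b hb
    exact ⟨ζ, loc_mono hζ hη0 (min_le_left _ _)⟩
  obtain ⟨ζ, hζ⟩ := hloc' a (mem_closedBall_self hr.le)
  refine ⟨η, δ, ζ, hζ, fun b hb => ?_⟩
  have hb1 : b ∈ closedBall a r := by
    rw [mem_closedBall]
    have h1 := mem_ball.1 hb
    have h2 : η ≤ 96 * r := min_le_right _ _
    linarith
  refine ⟨η, δ, ζ, hζ, ⟨δ, hloc' b hb1⟩, ?_, Eventually.of_forall fun _ => rfl⟩
  rw [← dist_eq_norm]; exact mem_ball.1 hb

/-- two local families -/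
theorem back {I : Inf} {a b : ℂ} {η δ δ' : ℝ} {ζ ζ' : ℂ → ℂ → ℂ} (hU : S_SOLUNI)
    (h : I.Loc a η δ ζ) (h' : I.Loc b η δ' ζ') (hab : ‖b - a‖ < η) {z : ℂ} (hz : ‖z‖ < δ)
    (hz' : 2 * ‖z‖ < δ') : ζ' a (ζ b z) = z := by
  have hb : b ∈ ball a η := by rw [mem_ball, dist_eq_norm]; exact hab
  have ha : a ∈ ball b η := by rw [mem_ball, dist_comm, dist_eq_norm]; exact hab
  have hw : ‖ζ b z‖ < δ' := lt_of_le_of_lt (h.size b hb z hz).2 hz'
  have h1 : I.Sol (ball a η ∩ ball b η) (fun s => ζ s z) := fun s hs => h.sol z hz s hs.1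
  have h2 : I.Sol (ball a η ∩ ball b η) (fun s => ζ' s (ζ b z)) := fun s hs =>
    h'.sol _ hw s hs.2
  have h3 := hU I (ball a η ∩ ball b η) (isOpen_ball.inter isOpen_ball)
    ((convex_ball a η).inter (convex_ball b η)).isPreconnected _ _ h2 h1 b
    ⟨hb, mem_ball_self h.η_pos⟩ (h'.init _ hw) a ⟨mem_ball_self h.η_pos, ha⟩
  have h4 : ζ' a (ζ b z) = ζ a z := h3
  rw [h4, h.init z hz]

theorem tr2 (hU : S_SOLUNI) : S_TR2 := by
  rintro I a b h ⟨η, δ, ζ, hloc, ⟨δ', ζ', hloc'⟩, hab, hh⟩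
  have hη := hloc.η_pos
  have hab' : ‖b - a‖ < η := by linarith
  have hba' : ‖a - b‖ < η := by rw [norm_sub_rev]; exact hab'
  have hb : b ∈ ball a η := by rw [mem_ball, dist_eq_norm]; exact hab'
  have ha : a ∈ ball b η := by rw [mem_ball, dist_eq_norm]; exact hba'
  refine ⟨loc_om hloc (mem_ball_self hη), loc_om hloc hb, ζ' a,
    ⟨η, δ', ζ', hloc', ⟨δ, ζ, hloc⟩, by rw [norm_sub_rev]; exact hab,
      Eventually.of_forall fun _ => rfl⟩, ?_, ?_⟩
  · have hm : ∀ᶠ z in 𝓝 (0 : ℂ), ‖z‖ < min δ (δ' / 2) := by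
      have : ball (0 : ℂ) (min δ (δ' / 2)) ∈ 𝓝 (0 : ℂ) :=
        ball_mem_nhds _ (lt_min hloc.δ_pos (half_pos hloc'.δ_pos))
      filter_upwards [this] with z hz
      exact mem_ball_zero_iff.1 hz
    filter_upwards [hh, hm] with z hz hz2
    rw [hz]
    have h1 := lt_min_iff.1 hz2
    exact back hU hloc hloc' hab' h1.1 (by linarith [h1.2])
  · have hm : ∀ᶠ z in 𝓝 (0 : ℂ), ‖z‖ < min δ' (δ / 2) := by
      have : ball (0 : ℂ) (min δ' (δ / 2)) ∈ 𝓝 (0 : ℂ) :=
        ball_mem_nhds _ (lt_min hloc'.δ_pos (half_pos hloc.δ_pos))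
      filter_upwards [this] with z hz
      exact mem_ball_zero_iff.1 hz
    have hcont : Tendsto (fun z => ζ' a z) (𝓝 0) (𝓝 0) := by
      rw [Metric.tendsto_nhds]
      intro e he
      have : ball (0 : ℂ) (min δ' (e / 2)) ∈ 𝓝 (0 : ℂ) :=
        ball_mem_nhds _ (lt_min hloc'.δ_pos (half_pos he))
      filter_upwards [this] with z hz
      have h1 := lt_min_iff.1 (mem_ball_zero_iff.1 hz)
      rw [dist_zero_right]
      have h2 := (hloc'.size a ha z h1.1).2
      linarith [h1.2]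
    filter_upwards [hcont.eventually hh, hm] with z hz hz2
    rw [hz]
    have h1 := lt_min_iff.1 hz2
    exact back hU hloc' hloc hba' h1.1 (by linarith [h1.2])

theorem tr1 : S_TR1 := by
  rintro I a b h ⟨η, δ, ζ, hloc, -, hab, hh⟩
  have hη := hloc.η_pos
  have hδ := hloc.δ_pos
  have hab' : ‖b - a‖ < η := by linarith
  have hb : b ∈ ball a η := by rw [mem_ball, dist_eq_norm]; exact hab'
  have han : AnalyticAt ℂ (fun z => ζ b z) 0 :=
    (hloc.diffz b hb).analyticAt (ball_mem_nhds _ hδ)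
  have hha : AnalyticAt ℂ h 0 := han.congr (hh.mono fun z hz => hz.symm)
  have h0 : h 0 = 0 := by rw [hh.self_of_nhds]; exact hloc.zero b hb
  have hder : deriv h 0 = deriv (fun z => ζ b z) 0 := Filter.EventuallyEq.deriv_eq hh
  -- the slope
  have hslope : Tendsto (fun z => ζ b z / z) (𝓝[≠] 0) (𝓝 (deriv h 0)) := by
    rw [hder]
    have h1 := han.differentiableAt.hasDerivAt
    rw [hasDerivAt_iff_tendsto_slope] at h1
    refine h1.congr fun z => ?_
    rw [slope_def_field, sub_zero, hloc.zero b hb, sub_zero]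
  have hev : ∀ᶠ z in 𝓝[≠] (0 : ℂ), ‖z‖ < δ ∧ z ≠ 0 := by
    have : ball (0 : ℂ) δ ∈ 𝓝 (0 : ℂ) := ball_mem_nhds _ hδ
    filter_upwards [mem_nhdsWithin_of_mem_nhds this, self_mem_nhdsWithin] with z hz hz'
    exact ⟨mem_ball_zero_iff.1 hz, hz'⟩
  have hne : deriv h 0 ≠ 0 := by
    have h1 : (1 / 2 : ℝ) ≤ ‖deriv h 0‖ := by
      refine ge_of_tendsto hslope.norm ?_
      filter_upwards [hev] with z hz
      rw [norm_div, le_div_iff₀ (norm_pos_iff.2 hz.2)]
      linarith [(hloc.size b hb z hz.1).1]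
    intro hcon
    rw [hcon, norm_zero] at h1
    linarith
  refine ⟨hha, h0, hne, ?_⟩
  intro E hE
  -- the segment
  set σ : ℝ → ℂ := fun θ => a + (θ : ℂ) * (b - a) with hσ
  have hσseg : ∀ θ ∈ Icc (0 : ℝ) 1, σ θ ∈ segment ℝ a b := by
    intro θ hθ
    rw [segment_eq_image']
    exact ⟨θ, hθ, by simp [hσ, Complex.real_smul]⟩
  have hsegball : segment ℝ a b ⊆ ball a η :=
    (convex_ball a η).segment_subset (mem_ball_self hη) hb
  have hσd : ∀ θ : ℝ, HasDerivAt σ (b - a) θ := by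
    intro θ
    have := ((Complex.ofRealCLM.hasDerivAt (x := θ)).mul_const (b - a)).const_add a
    simpa [hσ] using this
  have hsegc : IsCompact (segment ℝ a b) := by
    rw [segment_eq_image_lineMap]
    exact isCompact_Icc.image (AffineMap.lineMap_continuous)
  -- uniform convergence of the right-hand side
  have hFc : ContinuousOn (fun q : ℂ × ℂ => I.A q.1 (ζ q.1 q.2) / I.B q.1 (ζ q.1 q.2))
      (segment ℝ a b ×ˢ closedBall (0 : ℂ) (δ / 2)) := by
    have hsub : segment ℝ a b ×ˢ closedBall (0 : ℂ) (δ / 2) ⊆ ball a η ×ˢ ball (0 : ℂ) δ :=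
      prod_mono hsegball (closedBall_subset_ball (by linarith))
    have h1 : ContinuousOn (fun q : ℂ × ℂ => ((q.1, ζ q.1 q.2) : ℂ × ℂ))
        (segment ℝ a b ×ˢ closedBall (0 : ℂ) (δ / 2)) :=
      continuousOn_fst.prodMk (hloc.cont.mono hsub)
    refine ((cont_A' I).comp_continuousOn h1).div ((cont_B' I).comp_continuousOn h1) ?_
    intro q hq
    have hq' := hsub hq
    exact (hloc.sol q.2 (mem_ball_zero_iff.1 hq'.2) q.1 hq'.1).1
  have huc := (hsegc.prod (isCompact_closedBall (0 : ℂ) (δ / 2))).uniformContinuousOn_of_continuous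
    hFc
  have hsup : ∀ e > 0, ∀ᶠ z in 𝓝 (0 : ℂ), ∀ s ∈ segment ℝ a b,
      ‖I.A s (ζ s z) / I.B s (ζ s z) - (I.a 0).eval s / (I.b 0).eval s‖ ≤ e := by
    intro e he
    obtain ⟨e', he', hh'⟩ := Metric.uniformContinuousOn_iff.1 huc e he
    have : ball (0 : ℂ) (min e' (δ / 2)) ∈ 𝓝 (0 : ℂ) :=
      ball_mem_nhds _ (lt_min he' (half_pos hδ))
    filter_upwards [this] with z hz s hs
    have h1 := lt_min_iff.1 (mem_ball_zero_iff.1 hz)
    have h2 := hh' (s, z) ⟨hs, by rw [mem_closedBall_zero_iff]; exact h1.2.le⟩ (s, 0)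
      ⟨hs, by rw [mem_closedBall_zero_iff, norm_zero]; linarith⟩ (by
        rw [Prod.dist_eq, dist_self, dist_zero_right, max_eq_right (norm_nonneg _)]
        exact h1.1)
    rw [dist_eq_norm] at h2
    simp only [hloc.zero s (hsegball hs)] at h2
    rw [A_zero, B_zero] at h2
    exact h2.le
  -- a bound for the exponential
  have hEc : ContinuousOn (fun s => Complex.exp (-(E s - E a))) (segment ℝ a b) := by
    intro s hs
    have := (hE s hs).continuousAt
    exact (Complex.continuous_exp.continuousAt.comp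
      ((this.sub continuousAt_const).neg)).continuousWithinAt
  obtain ⟨C, hC⟩ := hsegc.exists_bound_of_continuousOn hEc
  have hC0 : 0 ≤ C := (norm_nonneg _).trans (hC a (left_mem_segment ℝ a b))
  -- the estimate
  have hest : ∀ e > 0, ∀ᶠ z in 𝓝[≠] (0 : ℂ),
      ‖ζ b z / z * Complex.exp (-(E b - E a)) - 1‖ ≤ 2 * C * ‖b - a‖ * e := by
    intro e he
    filter_upwards [hev, mem_nhdsWithin_of_mem_nhds (hsup e he)] with z hz hs
    have hder : ∀ θ ∈ Icc (0 : ℝ) 1, HasDerivWithinAt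
        (fun θ => ζ (σ θ) z / z * Complex.exp (-(E (σ θ) - E a)))
        ((b - a) * (ζ (σ θ) z / z * Complex.exp (-(E (σ θ) - E a))) *
          (I.A (σ θ) (ζ (σ θ) z) / I.B (σ θ) (ζ (σ θ) z) -
            (I.a 0).eval (σ θ) / (I.b 0).eval (σ θ))) (Icc 0 1) θ := by
      intro θ hθ
      have e1 : HasDerivAt (fun θ => ζ (σ θ) z) ((b - a) * (ζ (σ θ) z *
          I.A (σ θ) (ζ (σ θ) z) / I.B (σ θ) (ζ (σ θ) z))) θ := by
        exact (hloc.sol z hz.1 (σ θ) (hsegball (hσseg θ hθ))).2.scomp θ (hσd θ)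
      have e2 : HasDerivAt (fun θ => E (σ θ)) ((b - a) * ((I.a 0).eval (σ θ) /
          (I.b 0).eval (σ θ))) θ := by
        exact (hE (σ θ) (hσseg θ hθ)).scomp θ (hσd θ)
      have e3 : HasDerivAt (fun x : ℝ => Complex.exp (-(E (σ x) - E a)))
          (Complex.exp (-(E (σ θ) - E a)) * -((b - a) * ((I.a 0).eval (σ θ) /
          (I.b 0).eval (σ θ)))) θ := ((e2.sub_const (E a)).neg).cexp
      have e4 : HasDerivAt (fun x : ℝ => ζ (σ x) z / z * Complex.exp (-(E (σ x) - E a)))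
          ((b - a) * (ζ (σ θ) z * I.A (σ θ) (ζ (σ θ) z) / I.B (σ θ) (ζ (σ θ) z)) / z *
            Complex.exp (-(E (σ θ) - E a)) + ζ (σ θ) z / z *
            (Complex.exp (-(E (σ θ) - E a)) * -((b - a) * ((I.a 0).eval (σ θ) /
          (I.b 0).eval (σ θ))))) θ := (e1.div_const z).mul e3
      apply HasDerivAt.hasDerivWithinAt
      refine e4.congr_deriv ?_
      ring
    have hbound : ∀ θ ∈ Icc (0 : ℝ) 1, ‖(b - a) * (ζ (σ θ) z / z *
        Complex.exp (-(E (σ θ) - E a))) * (I.A (σ θ) (ζ (σ θ) z) / I.B (σ θ) (ζ (σ θ) z) -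
            (I.a 0).eval (σ θ) / (I.b 0).eval (σ θ))‖ ≤ 2 * C * ‖b - a‖ * e := by
      intro θ hθ
      have hz0 : 0 < ‖z‖ := norm_pos_iff.2 hz.2
      rw [norm_mul, norm_mul, norm_mul, norm_div]
      have b1 : ‖ζ (σ θ) z‖ / ‖z‖ ≤ 2 := by
        rw [div_le_iff₀ hz0]
        exact (hloc.size _ (hsegball (hσseg θ hθ)) z hz.1).2
      have b2 := hC _ (hσseg θ hθ)
      have b3 := hs _ (hσseg θ hθ)
      calc ‖b - a‖ * (‖ζ (σ θ) z‖ / ‖z‖ * ‖Complex.exp (-(E (σ θ) - E a))‖) *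
            ‖I.A (σ θ) (ζ (σ θ) z) / I.B (σ θ) (ζ (σ θ) z) -
              (I.a 0).eval (σ θ) / (I.b 0).eval (σ θ)‖
          ≤ ‖b - a‖ * (2 * C) * e := by
            refine mul_le_mul (mul_le_mul_of_nonneg_left
              (mul_le_mul b1 b2 (norm_nonneg _) (by norm_num)) (norm_nonneg _)) b3
              (norm_nonneg _) (by positivity)
        _ = _ := by ring
    have h1 := (convex_Icc (0 : ℝ) 1).norm_image_sub_le_of_norm_hasDerivWithin_le hder hbound
      ⟨le_rfl, zero_le_one⟩ ⟨zero_le_one, le_rfl⟩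
    have hσ1 : σ 1 = b := by simp [hσ]
    have hσ0 : σ 0 = a := by simp [hσ]
    simp only [hσ1, hσ0] at h1
    rw [hloc.init z hz.1, div_self hz.2, sub_self, neg_zero, Complex.exp_zero, mul_one,
      sub_zero, norm_one, mul_one] at h1
    exact h1
  -- the limit
  have hlim : Tendsto (fun z => ζ b z / z * Complex.exp (-(E b - E a))) (𝓝[≠] 0)
      (𝓝 (deriv h 0 * Complex.exp (-(E b - E a)))) := hslope.mul_const _
  have hzero : ∀ e > 0, ‖deriv h 0 * Complex.exp (-(E b - E a)) - 1‖ ≤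
      2 * C * ‖b - a‖ * e := fun e he =>
    le_of_tendsto (hlim.sub_const 1).norm (hest e he)
  have hfin : deriv h 0 * Complex.exp (-(E b - E a)) = 1 := by
    have h1 : ‖deriv h 0 * Complex.exp (-(E b - E a)) - 1‖ ≤ 0 := by
      refine le_of_forall_pos_le_add fun e he => ?_
      have h2 := hzero (e / (2 * C * ‖b - a‖ + 1)) (by positivity)
      refine h2.trans ?_
      rw [zero_add, mul_div_assoc', div_le_iff₀ (by positivity)]
      have : 0 ≤ 2 * C * ‖b - a‖ := by positivity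
      nlinarith
    exact sub_eq_zero.1 (norm_le_zero_iff.1 h1)
  have h5 : deriv h 0 = deriv h 0 * Complex.exp (-(E b - E a)) * Complex.exp (E b - E a) := by
    rw [mul_assoc, ← Complex.exp_add, neg_add_cancel, Complex.exp_zero, mul_one]
  rw [h5, hfin, one_mul]

end Pool.GL.Helper49
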